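import Mathlib

open Finset

namespace Pool.Agent.Hyp

section flat

variable {P : Type*} [Fintype P] [DecidableEq P] {n : ℕ}

lemma flat1 (p q : P) (hpq : q ≠ p) :
    (univ.filter (fun g : P → Fin n => g p = g q)).card * n ≤ n ^ Fintype.card P := by
  classical
  have h : ((univ.filter (fun g : P → Fin n => g p = g q)) ×ˢ (univ : Finset (Fin n))).card
      ≤ (univ : Finset (P → Fin n)).card := by
    apply Finset.card_le_card_of_injOn (fun x => Function.update x.1 p x.2)
    · intro x _; simp
    · rintro ⟨g, v⟩ hg ⟨g', v'⟩ hg' h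
      simp only [coe_product, coe_filter, mem_univ, true_and, coe_univ, Set.mem_prod,
        Set.mem_ofPred_eq, Set.mem_univ, and_true] at hg hg'
      simp only at h
      have hv : v = v' := by simpa using congrFun h p
      have hne : ∀ x, x ≠ p → g x = g' x := by
        intro x hx
        simpa [Function.update_of_ne hx] using congrFun h x
      have hp : g p = g' p := by rw [hg, hg']; exact hne q hpq
      have : g = g' := by
        funext x
        by_cases hx : x = p
        · rw [hx]; exact hp
        · exact hne x hx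
      rw [this, hv]
  rw [Finset.card_product] at h
  simpa using h

lemma flat2 (p q p' q' : P) (hpp : p ≠ p') (h1 : q ≠ p) (h2 : q ≠ p') (h3 : q' ≠ p)
    (h4 : q' ≠ p') :
    (univ.filter (fun g : P → Fin n => g p = g q ∧ g p' = g q')).card * (n * n)
      ≤ n ^ Fintype.card P := by
  classical
  have h : ((univ.filter (fun g : P → Fin n => g p = g q ∧ g p' = g q')) ×ˢ
      ((univ : Finset (Fin n)) ×ˢ (univ : Finset (Fin n)))).card
      ≤ (univ : Finset (P → Fin n)).card := by
    apply Finset.card_le_card_of_injOn
      (fun x => Function.update (Function.update x.1 p x.2.1) p' x.2.2)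
    · intro x _; simp
    · rintro ⟨g, v, w⟩ hg ⟨g', v', w'⟩ hg' h
      simp only [coe_product, coe_filter, mem_univ, true_and, coe_univ, Set.mem_prod,
        Set.mem_ofPred_eq, Set.mem_univ, and_true] at hg hg'
      simp only at h
      have hw : w = w' := by simpa using congrFun h p'
      have hv : v = v' := by simpa [Function.update_of_ne hpp] using congrFun h p
      have hne : ∀ x, x ≠ p → x ≠ p' → g x = g' x := by
        intro x hx hx'
        simpa [Function.update_of_ne hx, Function.update_of_ne hx'] using congrFun h x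
      have hp : g p = g' p := by rw [hg.1, hg'.1]; exact hne q h1 h2
      have hp' : g p' = g' p' := by rw [hg.2, hg'.2]; exact hne q' h3 h4
      have : g = g' := by
        funext x
        by_cases hx : x = p
        · rw [hx]; exact hp
        · by_cases hx' : x = p'
          · rw [hx']; exact hp'
          · exact hne x hx hx'
      rw [this, hv, hw]
  rw [Finset.card_product, Finset.card_product] at h
  simpa using h

lemma sum_four_pow (v : Fin n) :
    ∑ g : P → Fin n, (4 : ℝ) ^ (univ.filter (fun x => g x = v)).card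
      = ((n : ℝ) + 3) ^ Fintype.card P := by
  classical
  have h1 : ∀ g : P → Fin n, (4 : ℝ) ^ (univ.filter (fun x => g x = v)).card
      = ∏ x, (if g x = v then (4 : ℝ) else 1) := by
    intro g
    rw [Finset.prod_ite]
    simp
  simp_rw [h1]
  have h2 := Finset.prod_univ_sum (fun _ : P => (univ : Finset (Fin n)))
    (fun _ j => if j = v then (4 : ℝ) else 1)
  rw [Fintype.piFinset_univ] at h2
  rw [← h2]
  have h3 : ∑ j : Fin n, (if j = v then (4 : ℝ) else 1) = (n : ℝ) + 3 := by
    rw [Finset.sum_ite]
    simp only [sum_const, nsmul_eq_mul, mul_one]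
    have h4 := Finset.card_filter_add_card_filter_not (s := (univ : Finset (Fin n)))
      (fun x => x = v)
    have h5 : (univ.filter (fun x : Fin n => x = v)).card = 1 := by
      rw [Finset.card_eq_one]; exact ⟨v, by ext; simp⟩
    rw [h5] at h4 ⊢
    rw [Finset.card_univ, Fintype.card_fin] at h4
    have h6 : ((univ.filter (fun x : Fin n => ¬ x = v)).card : ℝ) = n - 1 := by
      have : (n : ℝ) = 1 + ((univ.filter (fun x : Fin n => ¬ x = v)).card : ℝ) := by
        exact_mod_cast h4.symm
      linarith
    rw [h6]; push_cast; ring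
  rw [h3]
  simp

end flat

variable {n t m : ℕ}

/-- Number of positions at which the vertex `v` occurs. -/
def Dv (f : Fin m → Fin t → Fin n) (v : Fin n) : ℕ :=
  (univ.filter (fun x : Fin m × Fin t => f x.1 x.2 = v)).card

/-- Indices whose tuple is not injective. -/
def B1 (f : Fin m → Fin t → Fin n) : Finset (Fin m) :=
  univ.filter (fun i => ∃ a b, b ≠ a ∧ f i a = f i b)

/-- Indices whose tuple shares two positions with another tuple. -/
def B2 (f : Fin m → Fin t → Fin n) : Finset (Fin m) :=
  univ.filter (fun i => ∃ j, j ≠ i ∧ ∃ a b a' b', a ≠ b ∧ f i a = f j a' ∧ f i b = f j b')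

/-- Indices whose tuple contains a vertex of large degree. -/
def B3 (D : ℕ) (f : Fin m → Fin t → Fin n) : Finset (Fin m) :=
  univ.filter (fun i => ∃ a, D < Dv f (f i a))

lemma sum_transfer (F : (Fin m → Fin t → Fin n) → ℝ) :
    ∑ f, F f = ∑ g : Fin m × Fin t → Fin n, F (fun i a => g (i, a)) := by
  rw [← Equiv.sum_comp (Equiv.curry (Fin m) (Fin t) (Fin n))]
  rfl

lemma sum_B1 (hn : 0 < n) :
    ∑ f : Fin m → Fin t → Fin n, ((B1 f).card : ℝ)
      ≤ ((m : ℝ) * t ^ 2 / n) * ((n : ℝ) ^ (m * t)) := by
  classical
  rw [sum_transfer]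
  have h1 : ∀ g : Fin m × Fin t → Fin n, ((B1 (fun i a => g (i, a))).card : ℝ)
      ≤ ∑ i : Fin m, ∑ a : Fin t, ∑ b : Fin t,
        (if b ≠ a ∧ g (i, a) = g (i, b) then (1 : ℝ) else 0) := by
    intro g
    rw [B1, Finset.card_filter]
    push_cast
    apply Finset.sum_le_sum
    intro i _
    split_ifs with h
    · obtain ⟨a, b, hab⟩ := h
      calc (1 : ℝ) = (if b ≠ a ∧ g (i, a) = g (i, b) then (1 : ℝ) else 0) := by
            rw [if_pos hab]
        _ ≤ ∑ b : Fin t, (if b ≠ a ∧ g (i, a) = g (i, b) then (1 : ℝ) else 0) :=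
            Finset.single_le_sum (f := fun b => 
              (if b ≠ a ∧ g (i, a) = g (i, b) then (1 : ℝ) else 0))
              (fun _ _ => by split_ifs <;> norm_num) (mem_univ b)
        _ ≤ ∑ a : Fin t, ∑ b : Fin t, (if b ≠ a ∧ g (i, a) = g (i, b) then (1 : ℝ) else 0) :=
            Finset.single_le_sum (f := fun a => ∑ b : Fin t,
              (if b ≠ a ∧ g (i, a) = g (i, b) then (1 : ℝ) else 0))
              (fun a _ => Finset.sum_nonneg (fun _ _ => by split_ifs <;> norm_num)) (mem_univ a)
    · exact Finset.sum_nonneg (fun _ _ => Finset.sum_nonneg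
        (fun _ _ => by split_ifs <;> norm_num))
  calc ∑ g : Fin m × Fin t → Fin n, ((B1 (fun i a => g (i, a))).card : ℝ)
      ≤ ∑ g : Fin m × Fin t → Fin n, ∑ i : Fin m, ∑ a : Fin t, ∑ b : Fin t,
        (if b ≠ a ∧ g (i, a) = g (i, b) then (1 : ℝ) else 0) :=
          Finset.sum_le_sum (fun g _ => h1 g)
    _ = ∑ i : Fin m, ∑ a : Fin t, ∑ b : Fin t, ∑ g : Fin m × Fin t → Fin n,
        (if b ≠ a ∧ g (i, a) = g (i, b) then (1 : ℝ) else 0) := by
          rw [Finset.sum_comm]
          refine Finset.sum_congr rfl (fun i _ => ?_)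
          rw [Finset.sum_comm]
          refine Finset.sum_congr rfl (fun a _ => ?_)
          rw [Finset.sum_comm]
    _ ≤ ∑ i : Fin m, ∑ a : Fin t, ∑ b : Fin t, (n : ℝ) ^ (m * t) / n := by
          apply Finset.sum_le_sum; intro i _
          apply Finset.sum_le_sum; intro a _
          apply Finset.sum_le_sum; intro b _
          by_cases hab : b ≠ a
          · have h2 := flat1 (n := n) (P := Fin m × Fin t) (i, a) (i, b)
              (by simpa using hab)
            rw [le_div_iff₀ (by exact_mod_cast hn)]
            simp only [ne_eq, hab, not_false_eq_true, true_and, sum_boole]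
            simp only [Fintype.card_prod, Fintype.card_fin] at h2
            exact_mod_cast h2
          · simp only [hab, false_and, if_false, sum_const_zero]
            positivity
    _ = _ := by
          simp only [sum_const, card_univ, Fintype.card_fin, nsmul_eq_mul]
          ring

lemma sum_B2 (hn : 0 < n) :
    ∑ f : Fin m → Fin t → Fin n, ((B2 f).card : ℝ)
      ≤ ((m : ℝ) ^ 2 * t ^ 4 / n ^ 2) * ((n : ℝ) ^ (m * t)) := by
  classical
  rw [sum_transfer]
  have h1 : ∀ g : Fin m × Fin t → Fin n, ((B2 (fun i a => g (i, a))).card : ℝ)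
      ≤ ∑ i : Fin m, ∑ x : Fin m × (Fin t × Fin t × Fin t × Fin t),
        (if x.1 ≠ i ∧ x.2.1 ≠ x.2.2.1 ∧ g (i, x.2.1) = g (x.1, x.2.2.2.1) ∧
          g (i, x.2.2.1) = g (x.1, x.2.2.2.2) then (1 : ℝ) else 0) := by
    intro g
    rw [B2, Finset.card_filter]
    push_cast
    apply Finset.sum_le_sum
    intro i _
    split_ifs with h
    · obtain ⟨j, hj, a, b, a', b', hab, e1, e2⟩ := h
      refine le_trans ?_ (Finset.single_le_sum (f := fun x : Fin m × (Fin t × Fin t × Fin t × Fin t) =>
        (if x.1 ≠ i ∧ x.2.1 ≠ x.2.2.1 ∧ g (i, x.2.1) = g (x.1, x.2.2.2.1) ∧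
          g (i, x.2.2.1) = g (x.1, x.2.2.2.2) then (1 : ℝ) else 0)) ?_
            (mem_univ (j, a, b, a', b')))
      · simp only
        rw [if_pos ⟨hj, hab, e1, e2⟩]
      · intro x _
        split_ifs <;> norm_num
    · exact Finset.sum_nonneg (fun _ _ => by split_ifs <;> norm_num)
  calc ∑ g : Fin m × Fin t → Fin n, ((B2 (fun i a => g (i, a))).card : ℝ)
      ≤ ∑ g : Fin m × Fin t → Fin n, ∑ i : Fin m,
        ∑ x : Fin m × (Fin t × Fin t × Fin t × Fin t),
        (if x.1 ≠ i ∧ x.2.1 ≠ x.2.2.1 ∧ g (i, x.2.1) = g (x.1, x.2.2.2.1) ∧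
          g (i, x.2.2.1) = g (x.1, x.2.2.2.2) then (1 : ℝ) else 0) :=
          Finset.sum_le_sum (fun g _ => h1 g)
    _ = ∑ i : Fin m, ∑ x : Fin m × (Fin t × Fin t × Fin t × Fin t),
        ∑ g : Fin m × Fin t → Fin n,
        (if x.1 ≠ i ∧ x.2.1 ≠ x.2.2.1 ∧ g (i, x.2.1) = g (x.1, x.2.2.2.1) ∧
          g (i, x.2.2.1) = g (x.1, x.2.2.2.2) then (1 : ℝ) else 0) := by
          rw [Finset.sum_comm]
          refine Finset.sum_congr rfl (fun i _ => ?_)
          rw [Finset.sum_comm]
    _ ≤ ∑ i : Fin m, ∑ x : Fin m × (Fin t × Fin t × Fin t × Fin t),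
          (n : ℝ) ^ (m * t) / n ^ 2 := by
          apply Finset.sum_le_sum; intro i _
          apply Finset.sum_le_sum; rintro ⟨j, a, b, a', b'⟩ _
          simp only
          by_cases hab : j ≠ i ∧ a ≠ b
          · have h2 := flat2 (n := n) (P := Fin m × Fin t) (i, a) (j, a') (i, b) (j, b')
              (by simp [hab.2]) (by simp [hab.1]) (by simp [hab.1]) (by simp [hab.1])
              (by simp [hab.1])
            rw [le_div_iff₀ (by positivity)]
            have h3 : (∑ g : Fin m × Fin t → Fin n,
              (if j ≠ i ∧ a ≠ b ∧ g (i, a) = g (j, a') ∧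
              g (i, b) = g (j, b') then (1 : ℝ) else 0))
              = ((univ.filter (fun g : Fin m × Fin t → Fin n =>
                g (i, a) = g (j, a') ∧ g (i, b) = g (j, b'))).card : ℝ) := by
              rw [Finset.sum_boole]
              congr 2
              ext g
              simp [hab.1, hab.2]
            rw [h3]
            simp only [Fintype.card_prod, Fintype.card_fin] at h2
            have h4 : ((univ.filter (fun g : Fin m × Fin t → Fin n =>
                g (i, a) = g (j, a') ∧ g (i, b) = g (j, b'))).card : ℝ) * ((n : ℝ) * n)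
                ≤ (n : ℝ) ^ (m * t) := by exact_mod_cast h2
            linarith [h4, sq (n : ℝ)]
          · have h3 : (∑ g : Fin m × Fin t → Fin n,
              (if j ≠ i ∧ a ≠ b ∧ g (i, a) = g (j, a') ∧
              g (i, b) = g (j, b') then (1 : ℝ) else 0)) = 0 := by
              apply Finset.sum_eq_zero
              intro g _
              rw [if_neg]
              rintro ⟨h5, h6, _⟩
              exact hab ⟨h5, h6⟩
            rw [h3]
            positivity
    _ = _ := by
          simp only [sum_const, card_univ, Fintype.card_fin, Fintype.card_prod, nsmul_eq_mul]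
          push_cast
          ring

lemma sum_B3 (D : ℕ) (hn : 0 < n) :
    ∑ f : Fin m → Fin t → Fin n, ((B3 D f).card : ℝ)
      ≤ ((n : ℝ) * Real.exp (3 * (m * t) / n) / 2 ^ D) * ((n : ℝ) ^ (m * t)) := by
  classical
  rw [sum_transfer]
  have h0 : ∀ g : Fin m × Fin t → Fin n, ∀ v, Dv (fun i a => g (i, a)) v
      = (univ.filter (fun x => g x = v)).card := by
    intro g v; rfl
  have h1 : ∀ g : Fin m × Fin t → Fin n, ((B3 D (fun i a => g (i, a))).card : ℝ)
      ≤ ∑ v : Fin n, (4 : ℝ) ^ (univ.filter (fun x => g x = v)).card / 2 ^ D := by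
    intro g
    have h2 : (B3 D (fun i a => g (i, a))).card
        ≤ (univ.filter (fun x : Fin m × Fin t =>
            D < (univ.filter (fun y => g y = g x)).card)).card := by
      have : B3 D (fun i a => g (i, a)) ⊆ (univ.filter (fun x : Fin m × Fin t =>
            D < (univ.filter (fun y => g y = g x)).card)).image Prod.fst := by
        intro i hi
        simp only [B3, mem_filter, mem_univ, true_and] at hi
        obtain ⟨a, ha⟩ := hi
        simp only [mem_image, mem_filter, mem_univ, true_and]
        exact ⟨(i, a), ha, rfl⟩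
      exact (Finset.card_le_card this).trans Finset.card_image_le
    have h3 : (univ.filter (fun x : Fin m × Fin t =>
            D < (univ.filter (fun y => g y = g x)).card)).card
        = ∑ v : Fin n, ((univ.filter (fun x : Fin m × Fin t =>
            D < (univ.filter (fun y => g y = g x)).card)).filter (fun x => g x = v)).card :=
      Finset.card_eq_sum_card_fiberwise (fun _ _ => by simp)
    have h4 : ((B3 D (fun i a => g (i, a))).card : ℝ) ≤
        ∑ v : Fin n, (((univ.filter (fun x : Fin m × Fin t =>
            D < (univ.filter (fun y => g y = g x)).card)).filter (fun x => g x = v)).card : ℝ) := by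
      rw [h3] at h2
      exact_mod_cast h2
    refine h4.trans (Finset.sum_le_sum (fun v _ => ?_))
    set e := (univ.filter (fun x => g x = v)).card with he
    have h5 : ((univ.filter (fun x : Fin m × Fin t =>
            D < (univ.filter (fun y => g y = g x)).card)).filter (fun x => g x = v)).card ≤ e := by
      apply Finset.card_le_card
      intro x hx
      simp only [mem_filter, mem_univ, true_and] at hx ⊢
      exact hx.2
    by_cases hD : D < e
    · have h6 : (e : ℝ) ≤ 2 ^ e := by
        exact_mod_cast (Nat.lt_two_pow_self (n := e)).le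
      have h7 : (2 : ℝ) ^ D ≤ 2 ^ e := pow_le_pow_right₀ (by norm_num) hD.le
      rw [le_div_iff₀ (by positivity)]
      calc _ ≤ (2 : ℝ) ^ e * 2 ^ e := by
            apply mul_le_mul _ h7 (by positivity) (by positivity)
            exact (by exact_mod_cast h5 : _ ≤ (e : ℝ)).trans h6
        _ = 4 ^ e := by rw [← mul_pow]; norm_num
    · have h8 : ((univ.filter (fun x : Fin m × Fin t =>
            D < (univ.filter (fun y => g y = g x)).card)).filter (fun x => g x = v)).card = 0 := by
        rw [Finset.card_eq_zero, Finset.filter_eq_empty_iff]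
        intro x hx hxv
        simp only [mem_filter, mem_univ, true_and] at hx
        rw [hxv] at hx
        exact hD hx
      rw [h8]
      push_cast
      positivity
  calc ∑ g : Fin m × Fin t → Fin n, ((B3 D (fun i a => g (i, a))).card : ℝ)
      ≤ ∑ g : Fin m × Fin t → Fin n, ∑ v : Fin n,
        (4 : ℝ) ^ (univ.filter (fun x => g x = v)).card / 2 ^ D :=
          Finset.sum_le_sum (fun g _ => h1 g)
    _ = ∑ v : Fin n, (∑ g : Fin m × Fin t → Fin n, 
        (4 : ℝ) ^ (univ.filter (fun x => g x = v)).card) / 2 ^ D := by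
          rw [Finset.sum_comm]
          refine Finset.sum_congr rfl (fun v _ => ?_)
          rw [Finset.sum_div]
    _ = n * (((n : ℝ) + 3) ^ (m * t) / 2 ^ D) := by
          simp only [sum_four_pow, sum_const, card_univ, Fintype.card_fin, Fintype.card_prod,
            nsmul_eq_mul]
    _ ≤ _ := by
          have h9 : ((n : ℝ) + 3) ^ (m * t) ≤ (n : ℝ) ^ (m * t) * Real.exp (3 * (m * t) / n) := by
            have hn' : (0 : ℝ) < n := by exact_mod_cast hn
            have h10 : (n : ℝ) + 3 ≤ n * Real.exp (3 / n) := by
              have := Real.add_one_le_exp (3 / (n : ℝ))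
              calc (n : ℝ) + 3 = n * (3 / n + 1) := by field_simp; ring
                _ ≤ _ := mul_le_mul_of_nonneg_left this hn'.le
            calc ((n : ℝ) + 3) ^ (m * t) ≤ (n * Real.exp (3 / n)) ^ (m * t) :=
                  pow_le_pow_left₀ (by positivity) h10 _
              _ = _ := by
                  rw [mul_pow, ← Real.exp_nat_mul]
                  congr 2
                  push_cast
                  field_simp
          have h11 : (n : ℝ) * (((n : ℝ) + 3) ^ (m * t) / 2 ^ D)
              ≤ n * (((n : ℝ) ^ (m * t) * Real.exp (3 * (m * t) / n)) / 2 ^ D) := by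
            apply mul_le_mul_of_nonneg_left _ (by positivity)
            apply div_le_div_of_nonneg_right h9 (by positivity)
          refine h11.trans (le_of_eq ?_)
          ring

end Pool.Agent.Hyp
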