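import Mathlib

open Finset

namespace Pool.Agent.Hyp

variable {n k : ℕ}

/-- A tuple of vertices is monochromatic for the colouring `c`. -/
def Mono {t : ℕ} (c : Fin n → Fin k) (x : Fin t → Fin n) : Prop := ∀ a b, c (x a) = c (x b)

instance {t : ℕ} (c : Fin n → Fin k) : DecidablePred (Mono (t := t) c) := fun x => by
  unfold Mono; infer_instance

/-- The number of monochromatic tuples is at least `n^(r+1)/k^r`. -/
lemma card_mono_ge (r : ℕ) (c : Fin n → Fin k) :
    (n : ℝ) ^ (r + 1) / (k : ℝ) ^ r ≤
      ((univ.filter (fun x : Fin (r + 1) → Fin n => Mono c x)).card : ℝ) := by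
  classical
  have h1 : (univ.filter (fun x : Fin (r + 1) → Fin n => Mono c x)).card
      = ∑ j : Fin k, ((univ.filter (fun v => c v = j)).card) ^ (r + 1) := by
    rw [Finset.card_eq_sum_card_fiberwise (f := fun x => c (x 0)) (t := univ)
      (fun _ _ => by simp)]
    refine Finset.sum_congr rfl (fun j _ => ?_)
    have : (univ.filter (fun x : Fin (r + 1) → Fin n => Mono c x)).filter
        (fun x => c (x 0) = j) = Fintype.piFinset (fun _ => univ.filter (fun v => c v = j)) := by
      ext x
      simp only [mem_filter, mem_univ, true_and, Fintype.mem_piFinset]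
      constructor
      · rintro ⟨h, h0⟩ a
        exact (h a 0).trans h0
      · intro h
        exact ⟨fun a b => (h a).trans (h b).symm, h 0⟩
    rw [this]
    simp [Fintype.card_piFinset]
  have h2 : ∑ j : Fin k, ((univ.filter (fun v => c v = j)).card : ℝ) = n := by
    have := Finset.card_eq_sum_card_fiberwise (s := (univ : Finset (Fin n))) (f := c)
      (t := univ) (fun _ _ => by simp)
    rw [Finset.card_univ, Fintype.card_fin] at this
    exact_mod_cast this.symm
  have h3 := pow_sum_div_card_le_sum_pow (s := (univ : Finset (Fin k)))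
    (f := fun j => ((univ.filter (fun v => c v = j)).card : ℝ)) (fun _ _ => by positivity) r
  rw [h2] at h3
  rw [h1]
  simpa using h3

/-- Exponential moment of the number of monochromatic tuples. -/
lemma sum_half_pow (r m : ℕ) (c : Fin n → Fin k) :
    ∑ f : Fin m → (Fin (r + 1) → Fin n),
      ((1 / 2 : ℝ)) ^ (univ.filter (fun i => Mono c (f i))).card
    = ((n : ℝ) ^ (r + 1) -
        ((univ.filter (fun x : Fin (r + 1) → Fin n => Mono c x)).card : ℝ) / 2) ^ m := by
  classical
  have h1 : ∀ f : Fin m → (Fin (r + 1) → Fin n),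
      ((1 / 2 : ℝ)) ^ (univ.filter (fun i => Mono c (f i))).card
      = ∏ i, (if Mono c (f i) then (1 / 2 : ℝ) else 1) := by
    intro f
    rw [Finset.prod_ite]
    simp
  simp_rw [h1]
  rw [← Fintype.sum_pow (fun x : Fin (r + 1) → Fin n => if Mono c x then (1 / 2 : ℝ) else 1) m]
  congr 1
  rw [Finset.sum_ite]
  have h2 : (univ.filter (fun x : Fin (r + 1) → Fin n => ¬ Mono c x)).card
      = n ^ (r + 1) - (univ.filter (fun x : Fin (r + 1) → Fin n => Mono c x)).card := by
    have := Finset.card_filter_add_card_filter_not (s := (univ : Finset (Fin (r + 1) → Fin n)))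
      (fun x => Mono c x)
    rw [Finset.card_univ] at this
    simp only [Fintype.card_pi, Fintype.card_fin, prod_const, card_univ] at this
    omega
  have h3 : (univ.filter (fun x : Fin (r + 1) → Fin n => Mono c x)).card ≤ n ^ (r + 1) := by
    have := Finset.card_filter_le (univ : Finset (Fin (r + 1) → Fin n)) (fun x => Mono c x)
    rw [Finset.card_univ] at this
    simpa using this
  simp only [sum_const, nsmul_eq_mul, mul_one]
  rw [h2, Nat.cast_sub h3]
  push_cast
  ring

/-- Markov's inequality: few `f` have few monochromatic tuples for `c`. -/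
lemma card_few_mono (r m T : ℕ) (hk : 0 < k) (hn : 0 < n) (c : Fin n → Fin k) :
    ((univ.filter (fun f : Fin m → (Fin (r + 1) → Fin n) =>
        (univ.filter (fun i => Mono c (f i))).card ≤ T)).card : ℝ)
    ≤ 2 ^ T * ((n : ℝ) ^ (r + 1)) ^ m * Real.exp (-(m : ℝ) / (2 * (k : ℝ) ^ r)) := by
  classical
  have h1 : ((univ.filter (fun f : Fin m → (Fin (r + 1) → Fin n) =>
        (univ.filter (fun i => Mono c (f i))).card ≤ T)).card : ℝ) * (1 / 2 : ℝ) ^ T
      ≤ ∑ f : Fin m → (Fin (r + 1) → Fin n),
      ((1 / 2 : ℝ)) ^ (univ.filter (fun i => Mono c (f i))).card := by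
    rw [← nsmul_eq_mul, ← Finset.sum_const]
    calc _ ≤ ∑ f ∈ (univ.filter (fun f : Fin m → (Fin (r + 1) → Fin n) =>
        (univ.filter (fun i => Mono c (f i))).card ≤ T)),
          ((1 / 2 : ℝ)) ^ (univ.filter (fun i => Mono c (f i))).card := by
            apply Finset.sum_le_sum
            intro f hf
            simp only [mem_filter, mem_univ, true_and] at hf
            exact pow_le_pow_of_le_one (by norm_num) (by norm_num) hf
      _ ≤ _ := by
            apply Finset.sum_le_sum_of_subset_of_nonneg (Finset.filter_subset _ _)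
            intro f _ _
            positivity
  rw [sum_half_pow] at h1
  have h2 := card_mono_ge r c
  have hk' : (0 : ℝ) < (k : ℝ) ^ r := by positivity
  have hn' : (0 : ℝ) < (n : ℝ) ^ (r + 1) := by positivity
  have h3 : ((univ.filter (fun x : Fin (r + 1) → Fin n => Mono c x)).card : ℝ)
      ≤ (n : ℝ) ^ (r + 1) := by
    have := Finset.card_filter_le (univ : Finset (Fin (r + 1) → Fin n)) (fun x => Mono c x)
    rw [Finset.card_univ] at this
    simp only [Fintype.card_pi, Fintype.card_fin, prod_const, card_univ] at this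
    exact_mod_cast this
  have h4 : ((n : ℝ) ^ (r + 1) -
        ((univ.filter (fun x : Fin (r + 1) → Fin n => Mono c x)).card : ℝ) / 2) ^ m
      ≤ ((n : ℝ) ^ (r + 1)) ^ m * Real.exp (-(m : ℝ) / (2 * (k : ℝ) ^ r)) := by
    have h5 : (n : ℝ) ^ (r + 1) -
        ((univ.filter (fun x : Fin (r + 1) → Fin n => Mono c x)).card : ℝ) / 2
        ≤ (n : ℝ) ^ (r + 1) * Real.exp (-(1 / (2 * (k : ℝ) ^ r))) := by
      have h6 := Real.add_one_le_exp (-(1 / (2 * (k : ℝ) ^ r)))
      calc (n : ℝ) ^ (r + 1) -
        ((univ.filter (fun x : Fin (r + 1) → Fin n => Mono c x)).card : ℝ) / 2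
          ≤ (n : ℝ) ^ (r + 1) - ((n : ℝ) ^ (r + 1) / (k : ℝ) ^ r) / 2 := by linarith
        _ = (n : ℝ) ^ (r + 1) * (-(1 / (2 * (k : ℝ) ^ r)) + 1) := by field_simp; ring
        _ ≤ _ := by
            apply mul_le_mul_of_nonneg_left h6 hn'.le
    calc _ ≤ ((n : ℝ) ^ (r + 1) * Real.exp (-(1 / (2 * (k : ℝ) ^ r)))) ^ m := by
            apply pow_le_pow_left₀ _ h5
            linarith
      _ = _ := by
            rw [mul_pow, ← Real.exp_nat_mul]
            congr 2
            field_simp
  have h7 : ((univ.filter (fun f : Fin m → (Fin (r + 1) → Fin n) =>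
        (univ.filter (fun i => Mono c (f i))).card ≤ T)).card : ℝ)
      = 2 ^ T * (((univ.filter (fun f : Fin m → (Fin (r + 1) → Fin n) =>
        (univ.filter (fun i => Mono c (f i))).card ≤ T)).card : ℝ) * (1 / 2 : ℝ) ^ T) := by
    rw [mul_comm, mul_assoc, ← mul_pow]
    norm_num
  rw [h7, mul_assoc]
  apply mul_le_mul_of_nonneg_left (h1.trans h4) (by positivity)

end Pool.Agent.Hyp
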