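import Mathlib
import Pool.Agent.Hyp.Counting
import Pool.Agent.Hyp.Bad

open Finset

namespace Pool.Agent.Hyp

variable {n t m k : ℕ}

/-- all bad indices -/
def Bad (D : ℕ) (f : Fin m → Fin t → Fin n) : Finset (Fin m) := B1 f ∪ B2 f ∪ B3 D f

/-- the hypergraph obtained from the good indices -/
def Edges (D : ℕ) (f : Fin m → Fin t → Fin n) : Finset (Finset (Fin n)) :=
  (univ \ Bad D f).image (fun i => univ.image (f i))

lemma not_bad {D : ℕ} {f : Fin m → Fin t → Fin n} {i : Fin m} (h : i ∉ Bad D f) :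
    Function.Injective (f i) ∧
    (∀ j, j ≠ i → ∀ a b a' b', a ≠ b → f i a = f j a' → f i b = f j b' → False) ∧
    (∀ a, Dv f (f i a) ≤ D) := by
  simp only [Bad, mem_union, not_or] at h
  obtain ⟨⟨h1, h2⟩, h3⟩ := h
  refine ⟨?_, ?_, ?_⟩
  · intro a b hab
    by_contra hne
    apply h1
    simp only [B1, mem_filter, mem_univ, true_and]
    exact ⟨a, b, fun h => hne h.symm, hab⟩
  · intro j hj a b a' b' hab e1 e2
    apply h2
    simp only [B2, mem_filter, mem_univ, true_and]
    exact ⟨j, hj, a, b, a', b', hab, e1, e2⟩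
  · intro a
    by_contra hlt
    apply h3
    simp only [B3, mem_filter, mem_univ, true_and]
    exact ⟨a, not_le.mp hlt⟩

lemma edges_uniform {D : ℕ} {f : Fin m → Fin t → Fin n} :
    ∀ e ∈ Edges D f, e.card = t := by
  intro e he
  simp only [Edges, mem_image, mem_sdiff, mem_univ, true_and] at he
  obtain ⟨i, hi, rfl⟩ := he
  rw [Finset.card_image_of_injective _ (not_bad hi).1]
  simp

lemma edges_linear {D : ℕ} {f : Fin m → Fin t → Fin n} :
    ∀ e ∈ Edges D f, ∀ e' ∈ Edges D f, e ≠ e' → (e ∩ e').card ≤ 1 := by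
  intro e he e' he' hne
  simp only [Edges, mem_image, mem_sdiff, mem_univ, true_and] at he he'
  obtain ⟨i, hi, rfl⟩ := he
  obtain ⟨j, hj, rfl⟩ := he'
  have hij : j ≠ i := by
    rintro rfl
    exact hne rfl
  rw [Finset.card_le_one]
  intro u hu w hw
  by_contra huw
  simp only [mem_inter, mem_image, mem_univ, true_and] at hu hw
  obtain ⟨⟨a, rfl⟩, ⟨a', ha'⟩⟩ := hu
  obtain ⟨⟨b, rfl⟩, ⟨b', hb'⟩⟩ := hw
  exact (not_bad hi).2.1 j hij a b a' b' (fun h => huw (by rw [h])) ha'.symm hb'.symm

lemma edges_degree {D : ℕ} {f : Fin m → Fin t → Fin n} (v : Fin n) :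
    ((Edges D f).filter (fun e => v ∈ e)).card ≤ D := by
  classical
  by_cases hv : ((Edges D f).filter (fun e => v ∈ e)).Nonempty
  · obtain ⟨e, he⟩ := hv
    simp only [mem_filter, Edges, mem_image, mem_sdiff, mem_univ, true_and] at he
    obtain ⟨⟨i, hi, rfl⟩, hvi⟩ := he
    simp only [mem_image, mem_univ, true_and] at hvi
    obtain ⟨a, rfl⟩ := hvi
    refine le_trans ?_ ((not_bad hi).2.2 a)
    have h1 : ((Edges D f).filter (fun e => f i a ∈ e)) ⊆
        ((univ.filter (fun x : Fin m × Fin t => f x.1 x.2 = f i a)).image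
          (fun x => univ.image (f x.1))) := by
      intro e he
      simp only [mem_filter, Edges, mem_image, mem_sdiff, mem_univ, true_and] at he
      obtain ⟨⟨j, hj, rfl⟩, hvj⟩ := he
      simp only [mem_image, mem_univ, true_and] at hvj
      obtain ⟨b, hb⟩ := hvj
      simp only [mem_image, mem_filter, mem_univ, true_and]
      exact ⟨(j, b), hb, rfl⟩
    exact (Finset.card_le_card h1).trans Finset.card_image_le
  · rw [Finset.not_nonempty_iff_eq_empty] at hv
    rw [hv]; simp

lemma mono_count {D : ℕ} {f : Fin m → Fin t → Fin n} (ht : 2 ≤ t) (c : Fin n → Fin k) :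
    (univ.filter (fun i => Mono c (f i))).card ≤
      ((Edges D f).filter (fun e => ∀ u ∈ e, ∀ w ∈ e, c u = c w)).card + (Bad D f).card := by
  classical
  have h1 : (univ.filter (fun i => Mono c (f i))).card ≤
      (((univ \ Bad D f).filter (fun i => Mono c (f i))) ∪ Bad D f).card := by
    apply Finset.card_le_card
    intro i hi
    simp only [mem_union, mem_filter, mem_sdiff, mem_univ, true_and] at hi ⊢
    by_cases hb : i ∈ Bad D f
    · right; exact hb
    · left; exact ⟨hb, hi⟩
  refine h1.trans ((Finset.card_union_le _ _).trans ?_)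
  apply Nat.add_le_add_right
  apply Finset.card_le_card_of_injOn (fun i => univ.image (f i))
  · intro i hi
    simp only [coe_filter, mem_sdiff, mem_univ, true_and, Set.mem_ofPred_eq, Edges, mem_image,
      forall_exists_index, forall_apply_eq_imp_iff] at hi ⊢
    refine ⟨⟨i, hi.1, rfl⟩, ?_⟩
    intro a b
    exact hi.2 a b
  · intro i hi j hj hij
    simp only [coe_filter, mem_sdiff, mem_univ, true_and, Set.mem_ofPred_eq] at hi hj hij
    by_contra hne
    have ha : ∀ a, ∃ a', f i a = f j a' := by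
      intro a
      have : f i a ∈ (univ.image (f i) : Finset (Fin n)) := by simp
      rw [hij] at this
      simp only [mem_image, mem_univ, true_and] at this
      obtain ⟨a', ha'⟩ := this
      exact ⟨a', ha'.symm⟩
    obtain ⟨a', ha'⟩ := ha ⟨0, by omega⟩
    obtain ⟨b', hb'⟩ := ha ⟨1, by omega⟩
    exact (not_bad hi.1).2.1 j (fun h => hne h.symm) ⟨0, by omega⟩ ⟨1, by omega⟩ a' b'
      (by simp) ha' hb'

lemma defective_count {E : Finset (Finset (Fin n))} {d : ℕ} (hE : ∀ e ∈ E, e.card = t)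
    (c : Fin n → Fin k)
    (hc : ∀ v, (E.filter (fun e => v ∈ e ∧ ∀ u ∈ e, c u = c v)).card ≤ d) :
    (E.filter (fun e => ∀ u ∈ e, ∀ w ∈ e, c u = c w)).card * t ≤ d * n := by
  classical
  have h1 : ∑ v : Fin n, (E.filter (fun e => v ∈ e ∧ ∀ u ∈ e, c u = c v)).card
      ≤ ∑ _v : Fin n, d := Finset.sum_le_sum (fun v _ => hc v)
  have h2 : ∑ v : Fin n, (E.filter (fun e => v ∈ e ∧ ∀ u ∈ e, c u = c v)).card
      = ∑ e ∈ E, (univ.filter (fun v => v ∈ e ∧ ∀ u ∈ e, c u = c v)).card := by
    simp_rw [Finset.card_filter]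
    rw [Finset.sum_comm]
  have h3 : (E.filter (fun e => ∀ u ∈ e, ∀ w ∈ e, c u = c w)).card * t
      ≤ ∑ e ∈ E, (univ.filter (fun v => v ∈ e ∧ ∀ u ∈ e, c u = c v)).card := by
    rw [← smul_eq_mul, ← Finset.sum_const]
    calc ∑ e ∈ E.filter (fun e => ∀ u ∈ e, ∀ w ∈ e, c u = c w), t
        ≤ ∑ e ∈ E.filter (fun e => ∀ u ∈ e, ∀ w ∈ e, c u = c w), 
          (univ.filter (fun v => v ∈ e ∧ ∀ u ∈ e, c u = c v)).card := by
          apply Finset.sum_le_sum
          intro e he
          rw [mem_filter] at he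
          rw [← hE e he.1]
          apply Finset.card_le_card
          intro v hv
          simp only [mem_filter, mem_univ, true_and]
          exact ⟨hv, fun u hu => he.2 u hu v hv⟩
      _ ≤ _ := Finset.sum_le_sum_of_subset_of_nonneg (Finset.filter_subset _ _)
          (fun _ _ _ => Nat.zero_le _)
  calc _ ≤ _ := h3
    _ = _ := h2.symm
    _ ≤ _ := h1
    _ = d * n := by simp [mul_comm]

/-- Existence of the hypergraph under an explicit inequality between the parameters. -/
theorem exists_hypergraph (r d k D' : ℕ) (hr : 1 ≤ r) (hk : 0 < k) (hD : 4 * (r + 1) ≤ 3 ^ D')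
    (hineq : ((r : ℝ) + 1) * Real.log k + ((d : ℝ) + 2) * Real.log 2
      ≤ (D' : ℝ) / (2 * (k : ℝ) ^ r)) :
    ∃ (n : ℕ) (E : Finset (Finset (Fin n))), (∀ e ∈ E, e.card = r + 1) ∧
      (∀ e ∈ E, ∀ e' ∈ E, e ≠ e' → (e ∩ e').card ≤ 1) ∧
      (∀ v, (E.filter (fun e => v ∈ e)).card ≤ 6 * D') ∧
      ∀ c : Fin n → Fin k, ∃ v,
        d < (E.filter (fun e => v ∈ e ∧ ∀ u ∈ e, c u = c v)).card := by
  classical
  set t := r + 1 with ht
  set N := 4 * (D' * t + D' ^ 2 * t ^ 2) + 1 with hN
  set n := t * N with hn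
  set m := D' * N with hm
  set T := (d + 1) * N with hT
  have hNpos : 0 < N := by omega
  have htpos : 0 < t := by omega
  have hnpos : 0 < n := Nat.mul_pos htpos hNpos
  have hNR : (0 : ℝ) < N := by exact_mod_cast hNpos
  have htR : (0 : ℝ) < t := by exact_mod_cast htpos
  have hnR : (0 : ℝ) < n := by exact_mod_cast hnpos
  set Om : ℝ := (n : ℝ) ^ (m * t) with hOm
  have hOmpos : 0 < Om := by positivity
  have hncast : (n : ℝ) = t * N := by rw [hn]; push_cast; ring
  have hmcast : (m : ℝ) = D' * N := by rw [hm]; push_cast; ring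
  -- the bad indices
  have hY : ∑ f : Fin m → Fin t → Fin n, ((Bad (6 * D') f).card : ℝ) ≤ (N : ℝ) / 2 * Om := by
    have h1 := sum_B1 (m := m) (t := t) hnpos
    have h2 := sum_B2 (m := m) (t := t) hnpos
    have h3 := sum_B3 (m := m) (t := t) (6 * D') hnpos
    have h4 : ∑ f : Fin m → Fin t → Fin n, ((Bad (6 * D') f).card : ℝ)
        ≤ ∑ f : Fin m → Fin t → Fin n, (((B1 f).card : ℝ) + ((B2 f).card : ℝ)
          + ((B3 (6 * D') f).card : ℝ)) := by
      apply Finset.sum_le_sum
      intro f _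
      have : (Bad (6 * D') f).card ≤ (B1 f).card + (B2 f).card + (B3 (6 * D') f).card := by
        unfold Bad
        exact (Finset.card_union_le _ _).trans (Nat.add_le_add_right (Finset.card_union_le _ _) _)
      exact_mod_cast this
    rw [Finset.sum_add_distrib, Finset.sum_add_distrib] at h4
    have e1 : (m : ℝ) * t ^ 2 / n = D' * t := by
      rw [hncast, hmcast]; field_simp
    have e2 : (m : ℝ) ^ 2 * t ^ 4 / n ^ 2 = D' ^ 2 * t ^ 2 := by
      rw [hncast, hmcast]; field_simp
    have e3 : (3 : ℝ) * (m * t) / n = 3 * D' := by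
      rw [hncast, hmcast]; field_simp
    have e4 : (n : ℝ) * Real.exp (3 * (m * t) / n) / 2 ^ (6 * D') ≤ N / 4 := by
      rw [e3, hncast]
      have h5 : Real.exp (3 * (D' : ℝ)) ≤ (64 / 3 : ℝ) ^ D' := by
        have h6 : Real.exp (3 * (D' : ℝ)) = (Real.exp 1 ^ 3) ^ D' := by
          rw [← Real.exp_nat_mul, ← Real.exp_nat_mul]
          congr 1
          push_cast
          ring
        rw [h6]
        apply pow_le_pow_left₀ (by positivity)
        have h7 := Real.exp_one_lt_d9
        calc Real.exp 1 ^ 3 ≤ (2.7182818286 : ℝ) ^ 3 :=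
              pow_le_pow_left₀ (Real.exp_pos 1).le h7.le 3
          _ ≤ 64 / 3 := by norm_num
      have h8 : (4 : ℝ) * t ≤ 3 ^ D' := by
        have : 4 * t ≤ 3 ^ D' := hD
        exact_mod_cast this
      have h9 : (2 : ℝ) ^ (6 * D') = 64 ^ D' := by
        rw [pow_mul]; norm_num
      rw [h9, div_le_iff₀ (by positivity)]
      have h10 : (64 / 3 : ℝ) ^ D' * 3 ^ D' = 64 ^ D' := by
        rw [← mul_pow]; norm_num
      calc (t : ℝ) * N * Real.exp (3 * (D' : ℝ)) ≤ t * N * (64 / 3 : ℝ) ^ D' :=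
            mul_le_mul_of_nonneg_left h5 (by positivity)
        _ = (4 * t) * ((64 / 3 : ℝ) ^ D') * (N / 4) := by ring
        _ ≤ (3 ^ D') * ((64 / 3 : ℝ) ^ D') * (N / 4) := by
            apply mul_le_mul_of_nonneg_right _ (by positivity)
            apply mul_le_mul_of_nonneg_right h8 (by positivity)
        _ = N / 4 * 64 ^ D' := by rw [← h10]; ring
    have e5 : (D' : ℝ) * t + D' ^ 2 * t ^ 2 ≤ N / 4 := by
      have : (N : ℝ) = 4 * (D' * t + D' ^ 2 * t ^ 2) + 1 := by
        rw [hN]; push_cast; ring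
      rw [this]; linarith
    rw [e1] at h1
    rw [e2] at h2
    have h3' := mul_le_mul_of_nonneg_right e4 hOmpos.le
    have e5' := mul_le_mul_of_nonneg_right e5 hOmpos.le
    have h6 : ((D' : ℝ) * t) * Om + (D' ^ 2 * t ^ 2) * Om ≤ N / 4 * Om := by
      rw [← add_mul]; exact e5'
    calc _ ≤ _ := h4
      _ ≤ ((D' : ℝ) * t) * Om + (D' ^ 2 * t ^ 2) * Om + N / 4 * Om :=
          add_le_add (add_le_add h1 h2) (h3.trans h3')
      _ ≤ N / 4 * Om + N / 4 * Om := by linarith
      _ = N / 2 * Om := by ring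
  have hcount1 : (((univ.filter (fun f : Fin m → Fin t → Fin n => N < (Bad (6 * D') f).card)).card : ℝ))
      * (N + 1) ≤ (N : ℝ) / 2 * Om := by
    refine le_trans ?_ hY
    rw [← nsmul_eq_mul, ← Finset.sum_const]
    calc _ ≤ ∑ f ∈ univ.filter (fun f : Fin m → Fin t → Fin n => N < (Bad (6 * D') f).card),
            ((Bad (6 * D') f).card : ℝ) := by
          apply Finset.sum_le_sum
          intro f hf
          simp only [mem_filter, mem_univ, true_and] at hf
          exact_mod_cast hf
      _ ≤ _ := Finset.sum_le_sum_of_subset_of_nonneg (Finset.filter_subset _ _)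
          (fun _ _ _ => by positivity)
  have hcount1' : (((univ.filter (fun f : Fin m → Fin t → Fin n => N < (Bad (6 * D') f).card)).card : ℝ))
      < Om / 2 := by
    have h1 : (((univ.filter (fun f : Fin m → Fin t → Fin n => N < (Bad (6 * D') f).card)).card : ℝ))
      ≤ ((N : ℝ) / 2 * Om) / (N + 1) := by
      rw [le_div_iff₀ (by positivity)]; exact hcount1
    refine lt_of_le_of_lt h1 ?_
    rw [div_lt_iff₀ (by positivity)]
    have h2 : Om / 2 * ((N : ℝ) + 1) = N / 2 * Om + Om / 2 := by ring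
    rw [h2]; linarith
  -- the colourings
  have hcount2 : ((univ.filter (fun f : Fin m → Fin t → Fin n => ∃ c : Fin n → Fin k,
      (univ.filter (fun i => Mono c (f i))).card ≤ T)).card : ℝ) ≤ Om / 2 := by
    have h1 : (univ.filter (fun f : Fin m → Fin t → Fin n => ∃ c : Fin n → Fin k,
      (univ.filter (fun i => Mono c (f i))).card ≤ T)) ⊆
      (univ : Finset (Fin n → Fin k)).biUnion (fun c =>
        univ.filter (fun f : Fin m → Fin t → Fin n =>
          (univ.filter (fun i => Mono c (f i))).card ≤ T)) := by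
      intro f hf
      simp only [mem_filter, mem_univ, true_and, mem_biUnion] at hf ⊢
      exact hf
    have h2 := (Finset.card_le_card h1).trans Finset.card_biUnion_le
    have h3 : ((univ.filter (fun f : Fin m → Fin t → Fin n => ∃ c : Fin n → Fin k,
      (univ.filter (fun i => Mono c (f i))).card ≤ T)).card : ℝ)
      ≤ ∑ c : Fin n → Fin k, ((univ.filter (fun f : Fin m → Fin t → Fin n =>
          (univ.filter (fun i => Mono c (f i))).card ≤ T)).card : ℝ) := by
      exact_mod_cast h2
    have h4 : ∀ c : Fin n → Fin k, ((univ.filter (fun f : Fin m → Fin t → Fin n =>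
          (univ.filter (fun i => Mono c (f i))).card ≤ T)).card : ℝ)
          ≤ 2 ^ T * ((n : ℝ) ^ (r + 1)) ^ m * Real.exp (-(m : ℝ) / (2 * (k : ℝ) ^ r)) :=
      fun c => card_few_mono r m T hk hnpos c
    have h5 := h3.trans (Finset.sum_le_sum (fun c _ => h4 c))
    rw [Finset.sum_const, nsmul_eq_mul, Finset.card_univ] at h5
    have h6 : (Fintype.card (Fin n → Fin k) : ℝ) = (k : ℝ) ^ n := by
      simp
    rw [h6] at h5
    have h7 : ((n : ℝ) ^ (r + 1)) ^ m = Om := by
      rw [hOm, ← pow_mul, mul_comm m t]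
    rw [h7] at h5
    refine h5.trans ?_
    have hkR : (0 : ℝ) < k := by exact_mod_cast hk
    have h8 : (k : ℝ) ^ n * 2 ^ T * Real.exp (-(m : ℝ) / (2 * (k : ℝ) ^ r)) ≤ 1 / 2 := by
      have e1 : (k : ℝ) ^ n = Real.exp (n * Real.log k) := by
        rw [Real.exp_nat_mul, Real.exp_log hkR]
      have e2 : (2 : ℝ) ^ T = Real.exp (T * Real.log 2) := by
        rw [Real.exp_nat_mul, Real.exp_log (by norm_num)]
      have e3 : (1 / 2 : ℝ) = Real.exp (-Real.log 2) := by
        rw [Real.exp_neg, Real.exp_log (by norm_num)]; norm_num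
      rw [e1, e2, e3, ← Real.exp_add, ← Real.exp_add]
      apply Real.exp_le_exp.mpr
      have hTc : (T : ℝ) = (d + 1) * N := by rw [hT]; push_cast; ring
      have htc : (t : ℝ) = r + 1 := by rw [ht]; push_cast; ring
      rw [hTc, hncast, hmcast, htc]
      have hlog2 : 0 < Real.log 2 := Real.log_pos (by norm_num)
      have hN1 : (1 : ℝ) ≤ N := by exact_mod_cast hNpos
      have h9 := mul_le_mul_of_nonneg_left hineq hNR.le
      have h10 : -(↑D' * (N : ℝ)) / (2 * (k : ℝ) ^ r) = -(N * (D' / (2 * (k : ℝ) ^ r))) := by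
        ring
      rw [h10]
      have h11 : Real.log 2 ≤ N * Real.log 2 := by
        calc Real.log 2 = 1 * Real.log 2 := (one_mul _).symm
          _ ≤ N * Real.log 2 := mul_le_mul_of_nonneg_right hN1 hlog2.le
      have h12 : ((r : ℝ) + 1) * N * Real.log k + (d + 1) * N * Real.log 2
          + -(N * (D' / (2 * (k : ℝ) ^ r)))
          = N * (((r : ℝ) + 1) * Real.log k + ((d : ℝ) + 2) * Real.log 2)
            - N * (D' / (2 * (k : ℝ) ^ r)) - N * Real.log 2 := by ring
      rw [h12]
      linarith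
    calc (k : ℝ) ^ n * (2 ^ T * Om * Real.exp (-(m : ℝ) / (2 * (k : ℝ) ^ r)))
        = ((k : ℝ) ^ n * 2 ^ T * Real.exp (-(m : ℝ) / (2 * (k : ℝ) ^ r))) * Om := by ring
      _ ≤ 1 / 2 * Om := mul_le_mul_of_nonneg_right h8 hOmpos.le
      _ = Om / 2 := by ring
  -- choose f
  obtain ⟨f, hf⟩ : ∃ f : Fin m → Fin t → Fin n,
      f ∉ (univ.filter (fun f : Fin m → Fin t → Fin n => N < (Bad (6 * D') f).card)) ∪
        (univ.filter (fun f : Fin m → Fin t → Fin n => ∃ c : Fin n → Fin k,
      (univ.filter (fun i => Mono c (f i))).card ≤ T)) := by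
    by_contra hcon
    push Not at hcon
    have h1 : (univ : Finset (Fin m → Fin t → Fin n)) ⊆
      (univ.filter (fun f : Fin m → Fin t → Fin n => N < (Bad (6 * D') f).card)) ∪
        (univ.filter (fun f : Fin m → Fin t → Fin n => ∃ c : Fin n → Fin k,
      (univ.filter (fun i => Mono c (f i))).card ≤ T)) := fun f _ => hcon f
    have h2 := (Finset.card_le_card h1).trans (Finset.card_union_le _ _)
    have h3 : ((univ : Finset (Fin m → Fin t → Fin n)).card : ℝ) = Om := by
      rw [Finset.card_univ]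
      simp only [Fintype.card_pi, Fintype.card_fin, prod_const, card_univ, hOm]
      push_cast
      rw [← pow_mul, mul_comm t m]
    have h4 : ((univ : Finset (Fin m → Fin t → Fin n)).card : ℝ) ≤
      ((univ.filter (fun f : Fin m → Fin t → Fin n => N < (Bad (6 * D') f).card)).card : ℝ) +
        ((univ.filter (fun f : Fin m → Fin t → Fin n => ∃ c : Fin n → Fin k,
      (univ.filter (fun i => Mono c (f i))).card ≤ T)).card : ℝ) := by exact_mod_cast h2
    rw [h3] at h4
    linarith
  simp only [mem_union, mem_filter, mem_univ, true_and, not_or, not_lt, not_exists, not_le] at hf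
  obtain ⟨hf1, hf2⟩ := hf
  refine ⟨n, Edges (6 * D') f, edges_uniform, edges_linear, edges_degree, ?_⟩
  intro c
  by_contra hcon
  push Not at hcon
  have h1 := defective_count (E := Edges (6 * D') f) edges_uniform c hcon
  have h2 := mono_count (D := 6 * D') (f := f) (by omega) c
  have h3 := hf2 c
  have h4 : ((Edges (6 * D') f).filter (fun e => ∀ u ∈ e, ∀ w ∈ e, c u = c w)).card ≤ d * N := by
    have h5 : ((Edges (6 * D') f).filter (fun e => ∀ u ∈ e, ∀ w ∈ e, c u = c w)).card * t
        ≤ (d * N) * t := by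
      calc _ ≤ d * n := h1
        _ = (d * N) * t := by rw [hn]; ring
    exact Nat.le_of_mul_le_mul_right h5 htpos
  have h6 : T = d * N + N := by rw [hT]; ring
  omega

end Pool.Agent.Hyp
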